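import Pool.Agent.W8.LS.Stm

/-!
Project LS (helper8), subtask LamLevel: different spheres lie in different levels of `c` modulo `1`.
-/

open Complex (I)
open Pool.Agent.W8.LS

namespace Pool.Agent.W73.LS

theorem LamLevel_proof : LamLevel := by
  intro hL k l m r k' l' m' r' N N' s s' w w' h
  obtain ⟨hF, -, -, -, -⟩ := hL
  obtain ⟨-, -, -, hpt, -⟩ := hF
  unfold lam at h
  obtain ⟨⟨e, k1, l1, a, n, m1, r1, -, hQ⟩, -⟩ := (hpt _ _ _ _).1 h
  have h2 := congrArg (fun P : V => P.2.1) hQ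
  have h3 : -(N' : ℝ) / √2 = -(N : ℝ) / √2 + n := h2
  have hs : (0 : ℝ) < √2 := Real.sqrt_pos.2 (by norm_num)
  have h4 : (N : ℝ) - N' = n * √2 := by
    have h5 : -(N' : ℝ) = -(N : ℝ) + n * √2 := by
      field_simp at h3
      linarith
    linarith
  have hn : n = 0 := by
    by_contra hn
    have hn' : (n : ℝ) ≠ 0 := by exact_mod_cast hn
    refine irrational_sqrt_two ⟨((N : ℚ) - N') / n, ?_⟩
    push_cast
    rw [h4]
    field_simp
  rw [hn, Int.cast_zero, zero_mul, sub_eq_zero] at h4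
  exact_mod_cast h4

end Pool.Agent.W73.LS
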